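import Pool.Agent.Lib.MP_d439b2_co.ST.Final
import Pool.Agent.Lib.MP_d439b2_co.ON2.Final
import Pool.Agent.Lib.MP_d439b2_co.X3.H1T.Final
import Pool.Agent.Lib.MP_d439b2_co.F9.BaseP

/-!
# MP_d439b2_co, BP: assembly of the base pair of `K3:0,1,02` and `co(P_3 + 2 P_2)` (helper38)

`S_End` is the end game: graphs with a staircase structure up to a bounded degree (the output of Theorem ST) have bounded
layouts.  `bpMain`, `pair3`: the base pair from the end game and from the removal of the large induced matchings (in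
the class without thin spiders).
-/

set_option autoImplicit false

namespace Pool.Agent.MPd439b2.BP

open Pool.Agent.MPd439b2 Pool.Agent.MPd439b2.Rep Pool.Agent.MPd439b2.A0

/-- the graph `K3:0,1,02` -/
abbrev K302 : SimpleGraph (Fin 3 ⊕ Fin 3) := KA 3 3 ![{0}, {1}, {0, 2}]

/-- an induced subgraph of an induced minor is an induced minor -/
theorem ims_sub {V W W' : Type} {H : SimpleGraph W} {H' : SimpleGraph W'} {G : SimpleGraph V} {S : Set V}
    (f : W' → W) (hf : Function.Injective f)
    (ha : ∀ u v, H'.Adj u v ↔ H.Adj (f u) (f v)) (h : IMS H G S) : IMS H' G S := by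
  obtain ⟨B, h1, h2, h3, h4⟩ := h
  exact ⟨fun w => B (f w), fun w => h1 _, fun w => h2 _, fun w w' hne => h3 _ _ fun h' => hne (hf h'),
    fun w w' hne => (ha w w').trans (h4 _ _ fun h' => hne (hf h'))⟩

/-- graphs without `co(P_3 + 2 P_2)` have no `co(P_3 + 4 P_2)` -/
theorem fr24 {W V : Type} {H : SimpleGraph W} {G : SimpleGraph V} (h : Rep.Fr H (JP 2) G) : Rep.Fr H J4 G := by
  refine ⟨h.1, fun h4 => h.2 ?_⟩
  refine ims_sub (Sum.map id (Prod.map (Fin.castLE (by omega)) id)) ?_ ?_ h4
  · exact Function.Injective.sumMap Function.injective_id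
      ((Fin.castLE_injective _).prodMap Function.injective_id)
  · rintro (u | ⟨u, u'⟩) (v | ⟨v, v'⟩)
    · exact Iff.rfl
    · exact Iff.rfl
    · exact Iff.rfl
    · exact not_congr (Fin.castLE_injective (by omega : 2 ≤ 4)).eq_iff.symm

/-- **The end game.** -/
def S_End : Prop := ∀ (m : ℕ) (β : ℕ → ℕ) (n b : ℕ), ∃ c₀ k : ℕ, ∀ (V : Type) [Finite V] (G : SimpleGraph V)
  (S : X2.St V n), Rep.Fr K302 (JP 2) G →
  NoT {(false, false, false), (true, false, false), (true, true, true)} m G → Link β c₀ G →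
  (∀ x y, ¬ (S.G.Adj x y ↔ G.Adj x y) → S.t (S.c x) ≠ S.t (S.c y)) →
  (∀ x, {y | ¬ (S.G.Adj x y ↔ G.Adj x y)}.ncard ≤ b) →
  (∀ i, S.t i = true → ∀ j, S.s i j = true) → Lay G k Set.univ

/-- the class without the three types: from Theorem ST and the end game -/
theorem blt3T (hE : S_End) :
    BLT K302 (JP 2) {(false, false, false), (true, false, false), (true, true, true)} := by
  refine blt_link _ fun m _ β => ?_
  obtain ⟨c₁, n, b, h1⟩ := ST.stThm m β
  obtain ⟨c₂, k, h2⟩ := hE m β n b
  refine ⟨max c₁ c₂, k, fun V _ G hF hT hL => ?_⟩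
  obtain ⟨S, h3, h4, h5⟩ := h1 V G (fr24 hF) hT (link_mono (le_max_left _ _) hL)
  exact h2 V G S hF hT (link_mono (le_max_right _ _) hL) h3 h4 h5

/-- **Bounded layouts**, from the end game and from the removal of the large induced matchings -/
theorem bpMain (hE : S_End)
    (hN : BLT K302 (JP 2) {(false, false, false), (true, false, false)} →
      BLT K302 (JP 2) {(true, false, false)}) : HC.BL K302 (JP 2) := by
  refine blt_empty (H1T.bltThin 2 (T := ∅) ?_)
  refine (hN (ON2.o1Red _ (by simp) (by simp) ((blt3T hE).mono ?_))).mono (by simp)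
  rintro τ h
  simp only [Set.mem_insert_iff, Set.mem_singleton_iff] at h ⊢
  tauto

/-- **The base pair `(K3:0,1,02, co(P_3 + 2 P_2))`** -/
theorem pair3 (hE : S_End)
    (hN : BLT K302 (JP 2) {(false, false, false), (true, false, false)} →
      BLT K302 (JP 2) {(true, false, false)}) :
    BoundedCW (F9.KF 3 3 ![{0}, {1}, {0, 2}]) (F9.JS ![0, 1, 1] 2) := by
  rw [F9.kf3]
  exact F9.bcw_of_bl (bpMain hE hN)

end Pool.Agent.MPd439b2.BP
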